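import Pool.Agent.X189.BS.Stm

set_option autoImplicit false

namespace Pool.Agent.X50.BS
open Equiv Pool.Agent.X189.BS

variable {n : ℕ}

lemma vstep_fst (q : ℤ) (X : Fin (n + 1) → ℤ) (x y : Fin (n + 1)) :
    vstep q X (x, y) x = X x + q * X y := by simp [vstep]

lemma vstep_snd (q : ℤ) (X : Fin (n + 1) → ℤ) (x y : Fin (n + 1)) :
    vstep q X (x, y) y = X x + q * X y := by simp [vstep]

lemma vstep_ne (q : ℤ) (X : Fin (n + 1) → ℤ) (x y z : Fin (n + 1)) (h1 : z ≠ x) (h2 : z ≠ y) :
    vstep q X (x, y) z = (1 + q) * X z := by simp [vstep, h1, h2]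

/-- before the crossing with the wire `a` the value is zero -/
lemma inv1 (q : ℤ) (hq : 0 < q) (a c : Fin (n + 1)) :
    ∀ P Q : List (Fin (n + 1) × Fin (n + 1)), Val a c (P ++ Q) →
      0 < P.foldl (vstep q) (Pi.single a 1) a ∧
      ∀ z, z ≠ a → (a, z) ∉ P → P.foldl (vstep q) (Pi.single a 1) z = 0 := by
  intro P
  induction P using List.reverseRecOn with
  | nil =>
    intro Q _
    refine ⟨by simp, ?_⟩
    intro z hz _
    simp [Pi.single_eq_of_ne hz]
  | append_singleton P e ih =>
    intro Q hV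
    rw [List.append_assoc] at hV
    obtain ⟨ih1, ih2⟩ := ih ([e] ++ Q) hV
    obtain ⟨hae, hlt, _, hnot, _, h5, _⟩ := hV P e Q (by simp)
    obtain ⟨x, y⟩ := e
    simp only at hae hlt hnot h5
    rw [List.foldl_append]
    simp only [List.foldl_cons, List.foldl_nil]
    by_cases hx : x = a
    · subst hx
      have hy0 : P.foldl (vstep q) (Pi.single x 1) y = 0 := ih2 y (ne_of_gt hlt) hnot
      constructor
      · rw [vstep_fst, hy0, mul_zero, add_zero]; exact ih1
      · intro z hz hzP
        have hzy : z ≠ y := by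
          rintro rfl
          exact hzP (by simp)
        have hzP' : (x, z) ∉ P := fun h => hzP (by simp [h])
        rw [vstep_ne _ _ _ _ _ hz hzy, ih2 z hz hzP', mul_zero]
    · have hax : a < x := lt_of_le_of_ne hae (Ne.symm hx)
      have hay : a < y := hax.trans hlt
      have hiff := h5 a le_rfl hax
      constructor
      · rw [vstep_ne _ _ _ _ _ (ne_of_lt hax) (ne_of_lt hay)]
        exact mul_pos (by omega) ih1
      · intro z hz hzP
        have hzP' : (a, z) ∉ P := fun h => hzP (by simp [h])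
        by_cases hzx : z = x
        · subst hzx
          have hy' : (a, y) ∉ P := fun h => hzP' (hiff.mpr h)
          rw [vstep_fst, ih2 z hz hzP', ih2 y (ne_of_gt hay) hy']
          ring
        · by_cases hzy : z = y
          · subst hzy
            have hx' : (a, x) ∉ P := fun h => hzP' (hiff.mp h)
            rw [vstep_snd, ih2 z hz hzP', ih2 x hx hx']
            ring
          · rw [vstep_ne _ _ _ _ _ hzx hzy, ih2 z hz hzP', mul_zero]

/-- after the flip the difference is zero above the wire `c` and positive on it -/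
lemma inv2 (q : ℤ) (hq : 0 < q) (a c : Fin (n + 1)) (T : List (Fin (n + 1) × Fin (n + 1)))
    (Y1 Y2 : Fin (n + 1) → ℤ) (hY : Y1 c < Y2 c) (hY' : ∀ z, z ≠ c → (z, c) ∉ T → Y1 z = Y2 z) :
    ∀ S Q : List (Fin (n + 1) × Fin (n + 1)), Val a c (T ++ (S ++ Q)) →
      S.foldl (vstep q) Y1 c < S.foldl (vstep q) Y2 c ∧
      ∀ z, z ≠ c → (z, c) ∉ T ++ S → S.foldl (vstep q) Y1 z = S.foldl (vstep q) Y2 z := by
  intro S
  induction S using List.reverseRecOn with
  | nil =>
    intro Q _
    refine ⟨by simpa using hY, ?_⟩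
    intro z hz hzT
    simpa using hY' z hz (by simpa using hzT)
  | append_singleton S e ih =>
    intro Q hV
    have hV' : Val a c (T ++ (S ++ ([e] ++ Q))) := by
      rw [List.append_assoc S] at hV; exact hV
    obtain ⟨ih1, ih2⟩ := ih ([e] ++ Q) hV'
    obtain ⟨_, hlt, hec, hnot, h4, _, _⟩ := hV (T ++ S) e Q (by simp)
    obtain ⟨x, y⟩ := e
    simp only at hlt hec hnot h4
    rw [List.foldl_append, List.foldl_append]
    simp only [List.foldl_cons, List.foldl_nil]
    by_cases hy : y = c
    · subst hy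
      have hx := ih2 x (ne_of_lt hlt) hnot
      constructor
      · rw [vstep_snd, vstep_snd, hx]
        have := mul_lt_mul_of_pos_left ih1 hq
        omega
      · intro z hz hzT
        have hzx : z ≠ x := by
          rintro rfl
          exact hzT (by simp)
        have hzT' : (z, y) ∉ T ++ S := fun h => hzT (by
          rw [← List.append_assoc]; exact List.mem_append_left _ h)
        rw [vstep_ne _ _ _ _ _ hzx hz, vstep_ne _ _ _ _ _ hzx hz, ih2 z hz hzT']
    · have hyc : y < c := lt_of_le_of_ne hec hy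
      have hxc : x < c := hlt.trans hyc
      have hiff := h4 c hyc le_rfl
      constructor
      · rw [vstep_ne _ _ _ _ _ (ne_of_gt hxc) (ne_of_gt hyc),
          vstep_ne _ _ _ _ _ (ne_of_gt hxc) (ne_of_gt hyc)]
        exact mul_lt_mul_of_pos_left ih1 (by omega)
      · intro z hz hzT
        have hzT' : (z, c) ∉ T ++ S := fun h => hzT (by
          rw [← List.append_assoc]; exact List.mem_append_left _ h)
        by_cases hzx : z = x
        · subst hzx
          have hy' : (y, c) ∉ T ++ S := fun h => hzT' (hiff.mp h)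
          rw [vstep_fst, vstep_fst, ih2 z hz hzT', ih2 y hy hy']
        · by_cases hzy : z = y
          · subst hzy
            have hx' : (x, c) ∉ T ++ S := fun h => hzT' (hiff.mpr h)
            rw [vstep_snd, vstep_snd, ih2 z hz hzT', ih2 x (ne_of_lt hxc) hx']
          · rw [vstep_ne _ _ _ _ _ hzx hzy, vstep_ne _ _ _ _ _ hzx hzy, ih2 z hz hzT']

theorem t_E1 : Pool.Agent.X189.BS.S_E1 := by
  intro n q a b c P S hq hab hbc hV
  have hac : a < c := hab.trans hbc
  obtain ⟨i1, i2⟩ := inv1 q hq a c P ((a, b) :: (a, c) :: (b, c) :: S) hV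
  have hb : (a, b) ∉ P := (hV P (a, b) ((a, c) :: (b, c) :: S) rfl).2.2.2.1
  have hc : (a, c) ∉ P := by
    have h := (hV (P ++ [(a, b)]) (a, c) ((b, c) :: S) (by simp)).2.2.2.1
    exact fun h' => h (List.mem_append_left _ h')
  have hXb := i2 b (ne_of_gt hab) hb
  have hXc := i2 c (ne_of_gt hac) hc
  rw [List.foldl_append, List.foldl_append]
  simp only [List.foldl_cons]
  generalize P.foldl (vstep q) (Pi.single a 1) = X at i1 hXb hXc ⊢
  have hV2 : Val a c ((P ++ [(a, b), (a, c), (b, c)]) ++ (S ++ [])) := by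
    simpa using hV
  refine (inv2 q hq a c (P ++ [(a, b), (a, c), (b, c)])
    (vstep q (vstep q (vstep q X (a, b)) (a, c)) (b, c))
    (vstep q (vstep q (vstep q X (b, c)) (a, c)) (a, b)) ?_ ?_ S [] hV2).1
  · rw [vstep_snd, vstep_ne _ _ _ _ _ (ne_of_gt hab) (ne_of_lt hbc), vstep_snd, vstep_snd, vstep_fst,
      vstep_ne _ _ _ _ _ (ne_of_gt hac) (ne_of_gt hbc),
      vstep_ne _ _ _ _ _ (ne_of_gt hac) (ne_of_gt hbc), vstep_snd,
      vstep_ne _ _ _ _ _ (ne_of_lt hab) (ne_of_lt hac), vstep_snd, hXb, hXc]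
    have h1 : 0 < q * q * X a := mul_pos (mul_pos hq hq) i1
    nlinarith [h1]
  · intro z hz hzT
    have hza : z ≠ a := by
      rintro rfl
      exact hzT (by simp)
    have hzb : z ≠ b := by
      rintro rfl
      exact hzT (by simp)
    rw [vstep_ne _ _ _ _ _ hzb hz, vstep_ne _ _ _ _ _ hza hz, vstep_ne _ _ _ _ _ hza hzb,
      vstep_ne _ _ _ _ _ hza hzb, vstep_ne _ _ _ _ _ hza hz, vstep_ne _ _ _ _ _ hzb hz]

end Pool.Agent.X50.BS
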